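import Mathlib
import Pool.Agent.H418R3.BHMain

/-!
# Centralizers in algebras spanned by a group with central traces

`Setup el t` (file `Pool.Agent.H418R3.BHAbs`): `A` is an algebra over the commutative ring `R ∋ 1/2`,
spanned by the image of a group `G`, and `el g + el g⁻¹` is the scalar `t g`.
-/

namespace Pool.Agent.Y343.BH

open Pool.Agent.H418R3.BHAbs Pool.Agent.H418R3.BHMain

variable {R A : Type*} [CommRing R] [Ring A] [Algebra R A] {G : Type*} [Group G]
variable {el : G →* A} {t : G → R}

/-- the trace free elements -/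
def V (R : Type*) {A : Type*} [CommRing R] [Ring A] [Algebra R A] {G : Type*} [Group G]
    (el : G →* A) : Submodule R A :=
  Submodule.span R (Set.range fun g => el g - el g⁻¹)

theorem d_mem (g : G) : el g - el g⁻¹ ∈ V R el := Submodule.subset_span ⟨g, rfl⟩

/-- trace free elements anticommute up to scalars -/
theorem anti (S : Setup el t) {x y : A} (hx : x ∈ V R el) (hy : y ∈ V R el) :
    ∃ r : R, x * y + y * x = algebraMap R A r := by
  induction hx using Submodule.span_induction with
  | zero => exact ⟨0, by simp⟩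
  | add a b _ _ ha hb =>
    obtain ⟨r, hr⟩ := ha
    obtain ⟨s, hs⟩ := hb
    refine ⟨r + s, ?_⟩
    rw [map_add, ← hr, ← hs]
    noncomm_ring
  | smul c a _ ha =>
    obtain ⟨r, hr⟩ := ha
    refine ⟨c * r, ?_⟩
    rw [smul_mul_assoc, mul_smul_comm, ← smul_add, hr, map_mul, Algebra.smul_def]
  | mem a ha =>
    obtain ⟨g, rfl⟩ := ha
    induction hy using Submodule.span_induction with
    | zero => exact ⟨0, by simp⟩
    | add a b _ _ ha hb =>
      obtain ⟨r, hr⟩ := ha
      obtain ⟨s, hs⟩ := hb
      refine ⟨r + s, ?_⟩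
      rw [map_add, ← hr, ← hs]
      noncomm_ring
    | smul c a _ ha =>
      obtain ⟨r, hr⟩ := ha
      refine ⟨c * r, ?_⟩
      rw [smul_mul_assoc, mul_smul_comm, ← smul_add, hr, map_mul, Algebra.smul_def]
    | mem a ha =>
      obtain ⟨h, rfl⟩ := ha
      exact ⟨_, S.sym g h⟩

/-- every element is a scalar plus a trace free element -/
theorem decomp (S : Setup el t) (z : A) : ∃ s : R, ∃ c ∈ V R el, z = algebraMap R A s + c := by
  obtain ⟨e, he⟩ := S.half
  have hz : z ∈ Submodule.span R (Set.range el) := by rw [S.span]; trivial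
  induction hz using Submodule.span_induction with
  | zero => exact ⟨0, 0, Submodule.zero_mem _, by simp⟩
  | add a b _ _ ha hb =>
    obtain ⟨s, c, hc, rfl⟩ := ha
    obtain ⟨s', c', hc', rfl⟩ := hb
    exact ⟨s + s', c + c', Submodule.add_mem _ hc hc', by rw [map_add]; abel⟩
  | smul r a _ ha =>
    obtain ⟨s, c, hc, rfl⟩ := ha
    exact ⟨r * s, r • c, Submodule.smul_mem _ _ hc, by
      rw [smul_add, map_mul, Algebra.smul_def]⟩
  | mem a ha =>
    obtain ⟨g, rfl⟩ := ha
    refine ⟨e * t g, e • (el g - el g⁻¹), Submodule.smul_mem _ _ (d_mem g), ?_⟩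
    rw [map_mul, S.ht, Algebra.smul_def, ← mul_add]
    have h2 : el g + el g⁻¹ + (el g - el g⁻¹) = 2 * el g := by noncomm_ring
    rw [h2, ← mul_assoc, ← map_ofNat (algebraMap R A) 2, ← map_mul, he, map_one, one_mul]

/-- the exchange identity -/
theorem star' (S : Setup el t) {x b c : A} {p q : R} (hbc : b * c = c * b)
    (hp : x * b + b * x = algebraMap R A p) (hq : x * c + c * x = algebraMap R A q) :
    p • c = q • b := by
  have cp : algebraMap R A p * c = c * algebraMap R A p := Algebra.commutes _ _
  have cq : algebraMap R A q * b = b * algebraMap R A q := Algebra.commutes _ _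
  have e1 : algebraMap R A p * c - algebraMap R A q * b = b * x * c - c * x * b := by
    rw [← hp, ← hq]
    have : x * b * c = x * c * b := by rw [mul_assoc, mul_assoc, hbc]
    calc (x * b + b * x) * c - (x * c + c * x) * b
        = (x * b * c - x * c * b) + (b * x * c - c * x * b) := by noncomm_ring
      _ = _ := by rw [this, sub_self, zero_add]
  have e2 : algebraMap R A p * c - algebraMap R A q * b = -(b * x * c - c * x * b) := by
    rw [cp, cq, ← hp, ← hq]
    have : c * b * x = b * c * x := by rw [hbc]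
    calc c * (x * b + b * x) - b * (x * c + c * x)
        = (c * b * x - b * c * x) - (b * x * c - c * x * b) := by noncomm_ring
      _ = _ := by rw [this, sub_self, zero_sub]
  have e3 : algebraMap R A p * c - algebraMap R A q * b = 0 := by
    apply S.two_inj
    nth_rewrite 1 [e1]
    rw [e2]; abel
  rw [Algebra.smul_def, Algebra.smul_def]
  exact sub_eq_zero.mp e3

/-- `1` and `el m` span the same module as `1` and `el m - el m⁻¹` -/
theorem b_mem_P (S : Setup el t) (m : G) :
    el m - el m⁻¹ ∈ Submodule.span R {1, el m} := by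
  have : el m - el m⁻¹ = (2 : R) • el m - t m • (1 : A) := by
    rw [Algebra.smul_def, Algebra.smul_def, mul_one, S.ht, map_ofNat]
    noncomm_ring
  rw [this]
  exact Submodule.sub_mem _ (Submodule.smul_mem _ _ (Submodule.subset_span (by simp)))
    (Submodule.smul_mem _ _ (Submodule.subset_span (by simp)))

theorem commute_parts (S : Setup el t) {m : G} {s : R} {c z : A}
    (hz : z = algebraMap R A s + c) (h : Commute z (el m)) :
    (el m - el m⁻¹) * c = c * (el m - el m⁻¹) := by
  have h1 : c * el m = el m * c := by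
    have h' : (algebraMap R A s + c) * el m = el m * (algebraMap R A s + c) := hz ▸ h.eq
    rw [add_mul, mul_add, Algebra.commutes s (el m)] at h'
    exact add_left_cancel h'
  have h2 : el m⁻¹ = algebraMap R A (t m) - el m := by rw [S.ht]; abel
  have h3 : c * el m⁻¹ = el m⁻¹ * c := by
    rw [h2, mul_sub, sub_mul, h1, ← Algebra.commutes (t m) c]
  rw [sub_mul, mul_sub, h1, h3]

/-- For every group: the elements `t (g m) - t (g m⁻¹)` multiply the centralizer of `el m` into
the span of `1` and `el m`. -/
theorem sigma_smul (S : Setup el t) (m g : G) {z : A} (h : Commute z (el m)) :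
    (2 * (t (g * m) - t (g * m⁻¹))) • z ∈ Submodule.span R {1, el m} := by
  obtain ⟨s, c, hc, hz⟩ := decomp S z
  have hbc := commute_parts S hz h
  obtain ⟨q, hq⟩ := anti S (d_mem (R := R) g) hc
  have h1 := star' S hbc (S.sym g m) hq
  rw [hz, smul_add, h1]
  refine Submodule.add_mem _ ?_ (Submodule.smul_mem _ _ (b_mem_P S m))
  rw [Algebra.algebraMap_eq_smul_one]
  exact Submodule.smul_mem _ _ (Submodule.smul_mem _ _ (Submodule.subset_span (by simp)))

/-- `A = n A + span (1, el m)` at a maximal (or prime) ideal containing all `t (g m) - t (g m⁻¹)` -/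
theorem claimB' (S : Setup el t) (m : G)
    (hW : ∀ g, el g - el g⁻¹ ∈ TwoSidedIdeal.span {el m - el m⁻¹})
    (n : Ideal R) (hJ : ∀ g, t (g * m) - t (g * m⁻¹) ∈ n) :
    (⊤ : Submodule R A) ≤ n • (⊤ : Submodule R A) ⊔ Submodule.span R {1, el m} := by
  obtain ⟨e, he⟩ := S.half
  let I := nIdeal A n
  let π : A →+* A ⧸ I := Ideal.Quotient.mk I
  have hπ0 : ∀ r ∈ n, π (algebraMap R A r) = 0 := fun r hr =>
    Ideal.Quotient.eq_zero_iff_mem.mpr (algebraMap_mem_nIdeal n hr)
  have hcomm : ∀ (r : R) (x : A ⧸ I), π (algebraMap R A r) * x = x * π (algebraMap R A r) := by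
    intro r x
    obtain ⟨y, rfl⟩ := Ideal.Quotient.mk_surjective x
    change π (algebraMap R A r) * π y = π y * π (algebraMap R A r)
    rw [← map_mul, ← map_mul, Algebra.commutes]
  set b : A := el m - el m⁻¹ with hb
  -- anticommutation with `b`
  have hanti : ∀ c ∈ V R el, π b * π c = - (π c * π b) := by
    intro c hc
    induction hc using Submodule.span_induction with
    | zero => simp
    | add x y _ _ hx hy => rw [map_add, mul_add, add_mul, hx, hy]; abel
    | smul r x _ hx =>
      rw [Algebra.smul_def, map_mul, ← mul_assoc, ← hcomm r (π b), mul_assoc, hx, mul_assoc,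
        mul_neg]
    | mem x hx =>
      obtain ⟨g, rfl⟩ := hx
      have h1 := congrArg π (S.sym g m)
      rw [hπ0 _ (n.mul_mem_left _ (hJ g)), map_add, map_mul, map_mul] at h1
      rw [add_comm] at h1
      exact eq_neg_of_add_eq_zero_left h1
  -- `b ^ 2 = 0`
  have hsq : π b * π b = 0 := by
    have h1 := hanti b (d_mem m)
    have h2 : π b * π b + π b * π b = 0 := by
      nth_rewrite 1 [h1]; abel
    have h3 : π (algebraMap R A e) * (π b * π b + π b * π b) = π b * π b := by
      rw [← two_mul, ← mul_assoc, ← map_ofNat π 2, ← map_ofNat (algebraMap R A) 2,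
        ← map_mul, ← map_mul, he, map_one, map_one, one_mul]
    rw [← h3, h2, mul_zero]
  -- right multiplication by `b` absorbs left multiplication
  have hbr : ∀ a : A, ∃ y : A, π b * π a = π y * π b := by
    intro a
    obtain ⟨s, c, hc, rfl⟩ := decomp S a
    refine ⟨algebraMap R A s - c, ?_⟩
    have h1 : π (algebraMap R A s - c) = π (algebraMap R A s) - π c := map_sub π _ _
    rw [h1, map_add, mul_add, hanti c hc, ← hcomm s (π b), sub_mul, sub_eq_add_neg]
  let L : TwoSidedIdeal A := TwoSidedIdeal.mk' {x : A | ∃ y : A, π x = π y * π b}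
    ⟨0, by simp⟩
    (by
      rintro x y ⟨u, hu⟩ ⟨v, hv⟩
      exact ⟨u + v, by rw [map_add, map_add, add_mul, hu, hv]⟩)
    (by
      rintro x ⟨u, hu⟩
      exact ⟨-u, by rw [map_neg, map_neg, neg_mul, hu]⟩)
    (by
      rintro a x ⟨u, hu⟩
      exact ⟨a * u, by rw [map_mul, map_mul, mul_assoc, hu]⟩)
    (by
      rintro x a ⟨u, hu⟩
      obtain ⟨y, hy⟩ := hbr a
      exact ⟨u * y, by rw [map_mul, map_mul, hu, mul_assoc, hy, mul_assoc]⟩)
  have hL : ∀ x, x ∈ L ↔ ∃ y : A, π x = π y * π b := by
    intro x
    exact TwoSidedIdeal.mem_mk' _ _ _ _ _ _ x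
  have hle : TwoSidedIdeal.span {b} ≤ L := by
    rw [TwoSidedIdeal.span_le]
    intro x hx
    rw [Set.mem_singleton_iff] at hx
    rw [SetLike.mem_coe, hL, hx]
    exact ⟨1, by rw [map_one, one_mul]⟩
  have hd : ∀ g, ∃ y : A, π (el g - el g⁻¹) = π y * π b := fun g => (hL _).mp (hle (hW g))
  have hdb : ∀ c ∈ V R el, π c * π b = 0 := by
    intro c hc
    induction hc using Submodule.span_induction with
    | zero => simp
    | add x y _ _ hx hy => rw [map_add, add_mul, hx, hy, add_zero]
    | smul r x _ hx => rw [Algebra.smul_def, map_mul, mul_assoc, hx, mul_zero]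
    | mem x hx =>
      obtain ⟨g, rfl⟩ := hx
      obtain ⟨y, hy⟩ := hd g
      simp only
      rw [hy, mul_assoc, hsq, mul_zero]
  have hdg : ∀ g, el g - el g⁻¹ ∈ n • (⊤ : Submodule R A) ⊔ Submodule.span R {1, el m} := by
    intro g
    obtain ⟨y, hy⟩ := hd g
    obtain ⟨s, c, hc, rfl⟩ := decomp S y
    rw [map_add, add_mul, hdb c hc, add_zero, ← map_mul] at hy
    have h1 : π (el g - el g⁻¹ - algebraMap R A s * b) = 0 := by rw [map_sub, hy, sub_self]
    have h2 := Ideal.Quotient.eq_zero_iff_mem.mp h1
    rw [mem_nIdeal] at h2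
    have h3 : algebraMap R A s * b ∈ Submodule.span R {1, el m} := by
      rw [← Algebra.smul_def]
      exact Submodule.smul_mem _ _ (b_mem_P S m)
    have h4 := Submodule.add_mem_sup h2 h3
    rwa [sub_add_cancel] at h4
  intro z _
  obtain ⟨s, c, hc, rfl⟩ := decomp S z
  refine Submodule.add_mem _ ?_ ?_
  · rw [Algebra.algebraMap_eq_smul_one]
    exact Submodule.smul_mem _ _ (Submodule.mem_sup_right (Submodule.subset_span (by simp)))
  · have : V R el ≤ n • (⊤ : Submodule R A) ⊔ Submodule.span R {1, el m} := by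
      unfold V
      rw [Submodule.span_le]
      rintro _ ⟨g, rfl⟩
      exact hdg g
    exact this hc

/-- The main abstract theorem: the centralizer of `el m` is spanned by `1` and `el m`. -/
theorem main_abs' (S : Setup el t) [Group.FG G] (m : G)
    (hW : ∀ g, el g - el g⁻¹ ∈ TwoSidedIdeal.span {el m - el m⁻¹})
    (z : A) (hz : Commute z (el m)) :
    z ∈ Submodule.span R {1, el m} := by
  set P : Submodule R A := Submodule.span R {1, el m} with hP
  let J : Ideal R :=
    { carrier := {r | r • z ∈ P}
      add_mem' := by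
        intro a b ha hb
        simp only [Set.mem_ofPred_eq] at *
        rw [add_smul]; exact P.add_mem ha hb
      zero_mem' := by simp
      smul_mem' := by
        intro c x hx
        simp only [Set.mem_ofPred_eq] at *
        rw [smul_assoc]; exact P.smul_mem _ hx }
  by_contra hcon
  have hJ : J ≠ ⊤ := by
    intro h
    apply hcon
    have : (1 : R) ∈ J := by rw [h]; trivial
    have h' : (1 : R) • z ∈ P := this
    rwa [one_smul] at h'
  obtain ⟨n, hn, hJn⟩ := J.exists_le_maximal hJ
  by_cases hcase : ∀ g, t (g * m) - t (g * m⁻¹) ∈ n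
  · have hB := claimB' S m hW n hcase
    have hQ : (⊤ : Submodule R (A ⧸ P)) ≤ n • (⊤ : Submodule R (A ⧸ P)) := by
      have h1 : Submodule.map P.mkQ ⊤ ≤
          Submodule.map P.mkQ (n • (⊤ : Submodule R A) ⊔ P) := Submodule.map_mono hB
      rw [Submodule.map_sup, Submodule.map_smul'', Submodule.mkQ_map_self, sup_bot_eq,
        Submodule.map_top, Submodule.range_mkQ] at h1
      exact h1
    have hfg : (⊤ : Submodule R (A ⧸ P)).FG := by
      have := (top_fg S).map P.mkQ
      rwa [Submodule.map_top, Submodule.range_mkQ] at this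
    obtain ⟨r, hr, hr2⟩ :=
      Submodule.exists_sub_one_mem_and_smul_eq_zero_of_fg_of_le_smul n _ hfg hQ
    have h3 := hr2 (P.mkQ z) trivial
    rw [← map_smul, Submodule.mkQ_apply, Submodule.Quotient.mk_eq_zero] at h3
    have h4 : r ∈ n := hJn h3
    have h5 : (1 : R) ∈ n := by
      have := n.sub_mem h4 hr
      rwa [sub_sub_cancel] at this
    exact hn.ne_top ((Ideal.eq_top_iff_one n).mpr h5)
  · push Not at hcase
    obtain ⟨g, hg⟩ := hcase
    apply hg
    have h4 : 2 * (t (g * m) - t (g * m⁻¹)) ∈ n := hJn (sigma_smul S m g hz)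
    exact (hn.isPrime.mem_or_mem h4).resolve_left (not_two_mem S n hn.isPrime)

end Pool.Agent.Y343.BH
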