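import Mathlib

/-!
# Algebras generated by a group with central traces

The algebras `A` of this file, for the ground ring `k = ℂ`, are exactly the quotient algebras of the
Brumfiel-Hilden algebra `H[π]`; for instance the algebra generated by the image of a representation
`π → SL₂(S)` over a commutative ring `S`.
-/

namespace Pool.Agent.Y343.BH

/-- `TraceAlgebra k ρ`: the `k`-algebra `A` is generated by the image of the group `π` under the
homomorphism `ρ : π → A` (into the multiplicative monoid), and all `ρ h + ρ h⁻¹` are central. -/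
def TraceAlgebra (k : Type*) {π A : Type*} [CommRing k] [Group π] [Ring A] [Algebra k A]
    (ρ : π →* A) : Prop :=
  Algebra.adjoin k (Set.range ρ) = ⊤ ∧ ∀ g h : π, Commute (ρ g) (ρ h + ρ h⁻¹)

/-- `A⁺`: the subalgebra generated by all `ρ g + ρ g⁻¹`. -/
def plus (k : Type*) {π A : Type*} [CommRing k] [Group π] [Ring A] [Algebra k A]
    (ρ : π →* A) : Subalgebra k A :=
  Algebra.adjoin k (Set.range fun g : π => ρ g + ρ g⁻¹)

/-- `A⁺[X, X⁻¹]` for `X = ρ m`: the subalgebra generated by `A⁺`, `ρ m` and `ρ m⁻¹`. -/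
def peri (k : Type*) {π A : Type*} [CommRing k] [Group π] [Ring A] [Algebra k A]
    (ρ : π →* A) (m : π) : Subalgebra k A :=
  Algebra.adjoin k ((plus k ρ : Set A) ∪ {ρ m, ρ m⁻¹})

/-- `SelfInverse ρ m`: modulo the two-sided ideal generated by `X - X⁻¹`, `X = ρ m`, every element
of the group is its own inverse. -/
def SelfInverse {π A : Type*} [Group π] [Ring A] (ρ : π →* A) (m : π) : Prop :=
  ∀ g : π, ρ g - ρ g⁻¹ ∈ TwoSidedIdeal.span {ρ m - ρ m⁻¹}

end Pool.Agent.Y343.BH
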