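import Mathlib
import Pool.Agent.Y343.BH.Core
import Pool.Agent.Y343.BH.Defs

/-!
# The centralizer of the meridian in algebras with central traces
-/

namespace Pool.Agent.Y343.BH

open Pool.Agent.H418R3.BHAbs Pool.Agent.H418R3.BHMain

section

variable {k π A : Type*} [CommRing k] [Group π] [Ring A] [Algebra k A] {ρ : π →* A}

theorem plus_comm (h : TraceAlgebra k ρ) {x : A} (hx : x ∈ plus k ρ) (y : A) :
    x * y = y * x := by
  induction hx using Algebra.adjoin_induction with
  | mem x hx =>
    obtain ⟨g, rfl⟩ := hx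
    change (ρ g + ρ g⁻¹) * y = y * (ρ g + ρ g⁻¹)
    have hy : y ∈ Algebra.adjoin k (Set.range ρ) := by rw [h.1]; trivial
    induction hy using Algebra.adjoin_induction with
    | mem y hy =>
      obtain ⟨g', rfl⟩ := hy
      exact (h.2 g' g).eq.symm
    | algebraMap r => exact (Algebra.commutes r _).symm
    | add a b _ _ ha hb => rw [mul_add, ha, hb, ← add_mul]
    | mul a b _ _ ha hb => rw [← mul_assoc, ha, mul_assoc, hb, mul_assoc]
  | algebraMap r => exact Algebra.commutes r y
  | add a b _ _ ha hb => rw [mul_add, add_mul, ha, hb]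
  | mul a b _ _ ha hb => rw [mul_assoc, hb, ← mul_assoc, ha, mul_assoc]

/-- `A⁺` as a ring of scalars -/
def PlusT (k : Type*) {π A : Type*} [CommRing k] [Group π] [Ring A] [Algebra k A]
    (ρ : π →* A) : Type _ := plus k ρ

/-- the commutative ring structure on `A⁺` -/
@[reducible] noncomputable def ringPlus (h : TraceAlgebra k ρ) : CommRing (PlusT k ρ) :=
  { (inferInstance : Ring (plus k ρ)) with
    mul_comm := fun a b => Subtype.ext (plus_comm h a.2 b.1) }

/-- the inclusion -/
noncomputable def inclPlus (h : TraceAlgebra k ρ) :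
    letI := ringPlus h
    PlusT k ρ →+* A := ((plus k ρ).val : (plus k ρ) →+* A)

/-- `A` as an algebra over `A⁺` -/
@[reducible] noncomputable def algPlus (h : TraceAlgebra k ρ) :
    letI := ringPlus h
    Algebra (PlusT k ρ) A :=
  letI := ringPlus h
  RingHom.toAlgebra' (inclPlus h) (fun c x => plus_comm h (Subtype.property c) x)

/-- the trace -/
noncomputable def trP (k : Type*) {π A : Type*} [CommRing k] [Group π] [Ring A] [Algebra k A]
    (ρ : π →* A) (g : π) : PlusT k ρ :=
  (⟨ρ g + ρ g⁻¹, Algebra.subset_adjoin ⟨g, rfl⟩⟩ : plus k ρ)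

theorem setup (h : TraceAlgebra k ρ) (h2 : IsUnit (2 : k)) :
    letI := ringPlus h
    letI := algPlus h
    Setup (R := PlusT k ρ) ρ (trP k ρ) := by
  letI := ringPlus h
  letI := algPlus h
  let c : k →+* PlusT k ρ := (algebraMap k (plus k ρ) : k →+* plus k ρ)
  have hc : ∀ r : k, algebraMap (PlusT k ρ) A (c r) = algebraMap k A r := fun r => rfl
  exact
  { ht := fun g => rfl
    inj := fun a b h => Subtype.ext h
    span := by
      rw [eq_top_iff]
      rintro x -
      have hx : x ∈ Algebra.adjoin k (Set.range ρ) := by rw [h.1]; trivial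
      induction hx using Algebra.adjoin_induction with
      | mem y hy => exact Submodule.subset_span hy
      | algebraMap r =>
        rw [← hc, Algebra.algebraMap_eq_smul_one]
        exact Submodule.smul_mem _ _ (Submodule.subset_span ⟨1, map_one _⟩)
      | add a b _ _ ha hb => exact Submodule.add_mem _ ha hb
      | mul a b ha' hb' ha hb =>
        clear ha' hb'
        induction ha using Submodule.span_induction with
        | zero => rw [zero_mul]; exact Submodule.zero_mem _
        | add x y _ _ hx hy => rw [add_mul]; exact Submodule.add_mem _ hx hy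
        | smul r x _ hx => rw [smul_mul_assoc]; exact Submodule.smul_mem _ _ hx
        | mem x hx =>
          obtain ⟨g, rfl⟩ := hx
          induction hb using Submodule.span_induction with
          | zero => rw [mul_zero]; exact Submodule.zero_mem _
          | add x y _ _ hx hy => rw [mul_add]; exact Submodule.add_mem _ hx hy
          | smul r x _ hx => rw [mul_smul_comm]; exact Submodule.smul_mem _ _ hx
          | mem x hx =>
            obtain ⟨g', rfl⟩ := hx
            exact Submodule.subset_span ⟨g * g', map_mul _ _ _⟩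
    half := by
      obtain ⟨u, hu⟩ := h2
      refine ⟨c (↑u⁻¹ : k), ?_⟩
      rw [← map_ofNat c 2, ← map_mul, ← hu, Units.inv_mul, map_one] }

theorem span_le_peri (h : TraceAlgebra k ρ) (m : π) {z : A} :
    (letI := ringPlus h
     letI := algPlus h
     z ∈ Submodule.span (PlusT k ρ) ({1, ρ m} : Set A)) → z ∈ peri k ρ m := by
  letI := ringPlus h
  letI := algPlus h
  intro hz
  change z ∈ Submodule.span (PlusT k ρ) ({1, ρ m} : Set A) at hz
  rw [Submodule.mem_span_pair] at hz
  obtain ⟨a, b, hab⟩ := hz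
  rw [← hab, Algebra.smul_def, Algebra.smul_def, mul_one]
  refine Subalgebra.add_mem _ ?_ (Subalgebra.mul_mem _ ?_ ?_)
  · exact Algebra.subset_adjoin (Or.inl (Subtype.property (p := fun x => x ∈ plus k ρ) a))
  · exact Algebra.subset_adjoin (Or.inl (Subtype.property (p := fun x => x ∈ plus k ρ) b))
  · exact Algebra.subset_adjoin (Or.inr (Or.inl rfl))

theorem peri_le (h : TraceAlgebra k ρ) (m : π) :
    peri k ρ m ≤ Subalgebra.centralizer k {ρ m} := by
  unfold peri
  rw [Algebra.adjoin_le_iff]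
  rintro x (hx | hx)
  · rw [SetLike.mem_coe, Subalgebra.mem_centralizer_iff]
    rintro _ rfl
    exact (plus_comm h hx _).symm
  · rw [SetLike.mem_coe, Subalgebra.mem_centralizer_iff]
    rintro _ rfl
    rcases hx with rfl | hx
    · rfl
    · rw [Set.mem_singleton_iff] at hx
      rw [hx, ← map_mul, ← map_mul, mul_inv_cancel, inv_mul_cancel]

/-- For finitely generated `π`, under `SelfInverse`, the centralizer of `X` is `A⁺[X, X⁻¹]`. -/
theorem centralizer_eq [Group.FG π] (h : TraceAlgebra k ρ) (h2 : IsUnit (2 : k)) (m : π)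
    (hm : SelfInverse ρ m) : Subalgebra.centralizer k {ρ m} = peri k ρ m := by
  refine le_antisymm ?_ (peri_le h m)
  intro z hz
  rw [Subalgebra.mem_centralizer_iff] at hz
  have hz' : Commute z (ρ m) := (hz _ rfl).symm
  letI := ringPlus h
  letI := algPlus h
  exact span_le_peri h m (main_abs' (setup h h2) m hm z hz')

/-- For every group: `X` and its centralizer, away from the traces `t (g m) - t (g m⁻¹)`. -/
theorem sigma_mul_mem (h : TraceAlgebra k ρ) (h2 : IsUnit (2 : k)) (m g : π) (z : A)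
    (hz : z ∈ Subalgebra.centralizer k {ρ m}) :
    (ρ (g * m) + ρ (g * m)⁻¹ - (ρ (g * m⁻¹) + ρ (g * m⁻¹)⁻¹)) * z ∈ peri k ρ m := by
  rw [Subalgebra.mem_centralizer_iff] at hz
  have hz' : Commute z (ρ m) := (hz _ rfl).symm
  letI := ringPlus h
  letI := algPlus h
  have S := setup h h2
  have h3 := span_le_peri h m (sigma_smul S m g hz')
  rw [Algebra.smul_def, map_mul, map_sub, S.ht, S.ht, map_ofNat] at h3
  obtain ⟨u, hu⟩ := h2
  have h4 := Subalgebra.smul_mem _ h3 (↑u⁻¹ : k)
  have h5 : (↑u⁻¹ : k) • ((2 : A) * (ρ (g * m) + ρ (g * m)⁻¹ -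
      (ρ (g * m⁻¹) + ρ (g * m⁻¹)⁻¹)) * z) = (ρ (g * m) + ρ (g * m)⁻¹ -
      (ρ (g * m⁻¹) + ρ (g * m⁻¹)⁻¹)) * z := by
    rw [mul_assoc, ← map_ofNat (algebraMap k A) 2, ← Algebra.smul_def, smul_smul, ← hu,
      Units.inv_mul, one_smul]
  rwa [h5] at h4

/-- normal generators have property `SelfInverse` -/
theorem selfInverse_of_normalClosure (h : TraceAlgebra k ρ) (h2 : IsUnit (2 : k)) (m : π)
    (hm : Subgroup.normalClosure {m} = ⊤) : SelfInverse ρ m := by
  obtain ⟨u, hu⟩ := h2
  set I : TwoSidedIdeal A := TwoSidedIdeal.span {ρ m - ρ m⁻¹} with hI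
  let q : A →+* I.ringCon.Quotient := I.ringCon.mk'
  have hq : ∀ x : A, q x = 0 ↔ x ∈ I := by
    intro x
    rw [TwoSidedIdeal.mem_iff]
    constructor
    · intro h
      exact (RingCon.eq _).mp h
    · intro h
      exact (RingCon.eq _).mpr h
  have hx : q (ρ m) = q (ρ m⁻¹) := by
    have : q (ρ m - ρ m⁻¹) = 0 := (hq _).mpr (TwoSidedIdeal.subset_span rfl)
    rwa [map_sub, sub_eq_zero] at this
  have h2' : q (algebraMap k A (↑u⁻¹ : k)) * 2 = 1 := by
    rw [← map_ofNat q 2, ← map_ofNat (algebraMap k A) 2, ← map_mul, ← map_mul, ← hu,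
      Units.inv_mul, map_one, map_one]
  let N : Subgroup π :=
    { carrier := {g | (∀ a : A, q (ρ g) * q a = q a * q (ρ g)) ∧ q (ρ g) = q (ρ g⁻¹)}
      mul_mem' := by
        rintro a b ⟨ha, ha'⟩ ⟨hb, hb'⟩
        refine ⟨fun x => ?_, ?_⟩
        · rw [map_mul, map_mul, mul_assoc, hb, ← mul_assoc, ha, mul_assoc]
        · rw [mul_inv_rev, map_mul, map_mul, map_mul, map_mul, ← ha', ← hb', ha]
      one_mem' := ⟨fun x => by simp, by simp⟩
      inv_mem' := by
        rintro a ⟨ha, ha'⟩
        refine ⟨fun x => ?_, ?_⟩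
        · rw [← ha', ha]
        · rw [inv_inv, ha'] }
  have hN : N.Normal := by
    constructor
    rintro w ⟨hw, hw'⟩ h
    have hh : q (ρ h) * q (ρ h⁻¹) = 1 := by
      rw [← map_mul, ← map_mul, mul_inv_cancel, map_one, map_one]
    have e1 : q (ρ (h * w * h⁻¹)) = q (ρ w) := by
      rw [map_mul, map_mul, map_mul, map_mul, ← hw (ρ h), mul_assoc, hh, mul_one]
    have e2 : q (ρ (h * w * h⁻¹)⁻¹) = q (ρ w⁻¹) := by
      have : (h * w * h⁻¹)⁻¹ = h * w⁻¹ * h⁻¹ := by group
      rw [this, map_mul, map_mul, map_mul, map_mul, ← hw', ← hw (ρ h), mul_assoc, hh, mul_one]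
    refine ⟨fun x => ?_, ?_⟩
    · rw [e1, hw]
    · rw [e1, e2, hw']
  have hmN : m ∈ N := by
    refine ⟨fun a => ?_, hx⟩
    have e1 : q (ρ m) = q (algebraMap k A (↑u⁻¹ : k)) * q (ρ m + ρ m⁻¹) := by
      rw [map_add, ← hx, ← two_mul, ← mul_assoc, h2', one_mul]
    have e2 : (ρ m + ρ m⁻¹) * a = a * (ρ m + ρ m⁻¹) :=
      plus_comm h (Algebra.subset_adjoin ⟨m, rfl⟩) a
    rw [e1, mul_assoc, ← map_mul q (ρ m + ρ m⁻¹) a, e2, map_mul, ← mul_assoc, ← mul_assoc,
      ← map_mul q, Algebra.commutes, map_mul]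
  have hle : Subgroup.normalClosure {m} ≤ N :=
    Subgroup.normalClosure_le_normal (by simpa using hmN)
  intro g
  have hg : g ∈ N := hle (by rw [hm]; trivial)
  rw [← hI, ← hq, map_sub, hg.2, sub_self]

end

end Pool.Agent.Y343.BH
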