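import Mathlib
import Pool.Agent.Y343.BH.Gen
import Pool.Agent.H418R3.BHAlg

/-!
# A characterisation
-/

namespace Pool.Agent.Y343.BH

open Pool.Agent.H418R3

universe u

theorem traceAlgebra_bh (π : Type*) [Group π] : TraceAlgebra ℂ (bhOf π) := by
  refine ⟨?_, fun g h => bh_central π g h⟩
  rw [eq_top_iff]
  rintro x -
  induction x using bh_induction with
  | h0 => exact Subalgebra.zero_mem _
  | hadd a b ha hb => exact Subalgebra.add_mem _ ha hb
  | hsmul c g =>
    exact Subalgebra.smul_mem _ (Algebra.subset_adjoin (Set.mem_range_self (f := bhOf π) g)) c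

section

variable {π : Type*} [Group π] {A : Type*} [Ring A] [Algebra ℂ A] (ρ : π →* A)

/-- the universal property of `H[π]` -/
noncomputable def liftBH (h : ∀ g h : π, Commute (ρ g) (ρ h + ρ h⁻¹)) : BHAlg π →ₐ[ℂ] A :=
  RingQuot.liftAlgHom ℂ ⟨MonoidAlgebra.lift ℂ A π ρ, by
    rintro _ _ ⟨g, h'⟩
    simp only [map_mul, map_add, MonoidAlgebra.lift_of]
    exact (h g h').eq⟩

theorem liftBH_of (h : ∀ g h : π, Commute (ρ g) (ρ h + ρ h⁻¹)) (g : π) :
    liftBH ρ h (bhOf π g) = ρ g := by
  rw [bhOf_apply]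
  unfold liftBH
  rw [RingQuot.liftAlgHom_mkAlgHom_apply, MonoidAlgebra.lift_of]

end

theorem selfInverse_map {π : Type*} [Group π] {A B : Type*} [Ring A] [Ring B] (ρ : π →* A)
    (σ : π →* B) (f : A →+* B) (hf : ∀ g, f (ρ g) = σ g) (m : π) (h : SelfInverse ρ m) :
    SelfInverse σ m := by
  intro g
  have hle : TwoSidedIdeal.span {ρ m - ρ m⁻¹} ≤
      TwoSidedIdeal.comap f (TwoSidedIdeal.span {σ m - σ m⁻¹}) := by
    rw [TwoSidedIdeal.span_le]
    rintro _ rfl
    rw [SetLike.mem_coe, TwoSidedIdeal.mem_comap, map_sub, hf, hf]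
    exact TwoSidedIdeal.subset_span rfl
  have := hle (h g)
  rwa [TwoSidedIdeal.mem_comap, map_sub, hf, hf] at this

/-- The characterisation of the pairs `(π, m)` for which the centralizer of the image of `m` is
generated by the traces and `m, m⁻¹` in all quotient algebras of `H[π]`. -/
theorem char_iff (π : Type u) [Group π] [Group.FG π] (m : π) :
    SelfInverse (bhOf π) m ↔
      ∀ (A : Type u) [Ring A] [Algebra ℂ A] (ρ : π →* A), TraceAlgebra ℂ ρ →
        Subalgebra.centralizer ℂ {ρ m} = peri ℂ ρ m := by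
  have h2 : IsUnit (2 : ℂ) := IsUnit.mk0 _ two_ne_zero
  constructor
  · intro h A _ _ ρ hρ
    exact centralizer_eq hρ h2 m
      (selfInverse_map (bhOf π) ρ (liftBH ρ hρ.2 : BHAlg π →+* A) (liftBH_of ρ hρ.2) m h)
  · intro H
    set I : TwoSidedIdeal (BHAlg π) := TwoSidedIdeal.span {bhOf π m - bhOf π m⁻¹} with hI
    let Q := I.ringCon.Quotient
    let q : BHAlg π →ₐ[ℂ] Q := RingCon.mkₐ ℂ I.ringCon
    have hq : ∀ x : BHAlg π, q x = 0 ↔ x ∈ I := by
      intro x
      rw [TwoSidedIdeal.mem_iff]
      constructor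
      · intro h
        exact (RingCon.eq _).mp h
      · intro h
        exact (RingCon.eq _).mpr h
    have hqs : Function.Surjective q := by
      intro y
      obtain ⟨x, rfl⟩ := RingCon.mk'_surjective I.ringCon y
      exact ⟨x, rfl⟩
    let ρ : π →* Q := (q : BHAlg π →* Q).comp (bhOf π)
    have hρq : ∀ g, ρ g = q (bhOf π g) := fun g => rfl
    have hmap : ∀ x ∈ (⊤ : Subalgebra ℂ (BHAlg π)), q x ∈ Algebra.adjoin ℂ (Set.range ρ) := by
      intro x hx
      rw [← (traceAlgebra_bh π).1] at hx
      have := (Subalgebra.mem_map (S := Algebra.adjoin ℂ (Set.range (bhOf π)))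
        (f := q)).mpr ⟨x, hx, rfl⟩
      rw [AlgHom.map_adjoin] at this
      have e : (q : BHAlg π → Q) '' Set.range (bhOf π) = Set.range ρ := by
        rw [← Set.range_comp]; rfl
      rwa [e] at this
    have hρ : TraceAlgebra ℂ ρ := by
      refine ⟨?_, ?_⟩
      · rw [eq_top_iff]
        rintro y -
        obtain ⟨x, rfl⟩ := hqs y
        exact hmap x trivial
      · intro g h
        have := bh_central π g h
        have h' := congrArg q this
        rw [map_mul, map_mul, map_add] at h'
        exact h'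
    have hX : ρ m = ρ m⁻¹ := by
      have : q (bhOf π m - bhOf π m⁻¹) = 0 := (hq _).mpr (TwoSidedIdeal.subset_span rfl)
      rw [map_sub, sub_eq_zero] at this
      exact this
    have hXp : ρ m ∈ plus ℂ ρ := by
      have h1 : (1 / 2 : ℂ) • (ρ m + ρ m⁻¹) ∈ plus ℂ ρ :=
        Subalgebra.smul_mem _ (Algebra.subset_adjoin
          (Set.mem_range_self (f := fun g : π => ρ g + ρ g⁻¹) m)) _
      rw [← hX, ← two_smul ℂ, smul_smul] at h1
      norm_num at h1
      exact h1
    have hcen : Subalgebra.centralizer ℂ {ρ m} = ⊤ := by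
      rw [eq_top_iff]
      rintro x -
      rw [Subalgebra.mem_centralizer_iff]
      rintro _ rfl
      exact plus_comm hρ hXp x
    have hperi : peri ℂ ρ m ≤ plus ℂ ρ := by
      unfold peri
      rw [Algebra.adjoin_le_iff]
      rintro x (hx | hx)
      · exact hx
      · rcases hx with rfl | hx
        · exact hXp
        · rw [Set.mem_singleton_iff] at hx
          rw [hx, ← hX]; exact hXp
    have htop : plus ℂ ρ = ⊤ := by
      rw [eq_top_iff, ← hcen, H Q ρ hρ]
      exact hperi
    have hcomm : ∀ x y : Q, x * y = y * x := fun x y =>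
      plus_comm hρ (by rw [htop]; trivial) y
    -- the inverse homomorphism
    let σ : π →* Q :=
      { toFun := fun g => ρ g⁻¹
        map_one' := by simp
        map_mul' := fun a b => by rw [mul_inv_rev, map_mul, hcomm] }
    let f : BHAlg π →ₐ[ℂ] Q := liftBH σ (fun g h => hcomm _ _)
    have hf : ∀ g, f (bhOf π g) = ρ g⁻¹ := fun g => liftBH_of σ _ g
    have hfI : ∀ x ∈ I, f x = 0 := by
      intro x hx
      have hle : I ≤ TwoSidedIdeal.comap (f : BHAlg π →+* Q) ⊥ := by
        refine TwoSidedIdeal.span_le.mpr ?_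
        rintro _ rfl
        rw [SetLike.mem_coe, TwoSidedIdeal.mem_comap, TwoSidedIdeal.mem_bot]
        change f (bhOf π m - bhOf π m⁻¹) = 0
        rw [map_sub, hf, hf, inv_inv, hX, sub_self]
      have := hle hx
      rw [TwoSidedIdeal.mem_comap, TwoSidedIdeal.mem_bot] at this
      exact this
    have hfq : ∀ x ∈ bhPlus π, f x = q x := by
      intro x hx
      induction hx using Algebra.adjoin_induction with
      | mem x hx =>
        obtain ⟨g, rfl⟩ := hx
        simp only [map_add]
        rw [hf, hf, inv_inv, ← hρq, ← hρq, add_comm]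
      | algebraMap r => rw [AlgHom.commutes, AlgHom.commutes]
      | add a b _ _ ha hb => rw [map_add, map_add, ha, hb]
      | mul a b _ _ ha hb => rw [map_mul, map_mul, ha, hb]
    have hplus : ∀ y ∈ plus ℂ ρ, ∃ x ∈ bhPlus π, q x = y := by
      intro y hy
      induction hy using Algebra.adjoin_induction with
      | mem x hx =>
        obtain ⟨g, rfl⟩ := hx
        exact ⟨bhOf π g + bhOf π g⁻¹, Algebra.subset_adjoin ⟨g, rfl⟩, by
          rw [map_add]; rfl⟩
      | algebraMap r => exact ⟨algebraMap ℂ _ r, Subalgebra.algebraMap_mem _ _, AlgHom.commutes _ _⟩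
      | add a b _ _ ha hb =>
        obtain ⟨x, hx, rfl⟩ := ha
        obtain ⟨y, hy, rfl⟩ := hb
        exact ⟨x + y, Subalgebra.add_mem _ hx hy, map_add _ _ _⟩
      | mul a b _ _ ha hb =>
        obtain ⟨x, hx, rfl⟩ := ha
        obtain ⟨y, hy, rfl⟩ := hb
        exact ⟨x * y, Subalgebra.mul_mem _ hx hy, map_mul _ _ _⟩
    intro g
    obtain ⟨x, hx, hxg⟩ := hplus (ρ g) (by rw [htop]; trivial)
    have h3 : f (x - bhOf π g) = 0 := by
      apply hfI
      rw [← hq, map_sub, hxg, hρq, sub_self]
    rw [map_sub, hfq x hx, hxg, hf, sub_eq_zero] at h3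
    rw [← hI, ← hq, map_sub, sub_eq_zero]
    exact h3

end Pool.Agent.Y343.BH
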