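import Mathlib
import Pool.Agent.Y343.BH.Gen

/-!
# Representations in `SL₂` over commutative rings
-/

namespace Pool.Agent.Y343.BH

open Pool.Agent.H418R3.BHAbs Pool.Agent.H418R3.BHMain

variable {S : Type*} [CommRing S] {π : Type*} [Group π]

/-- the matrices of a representation -/
noncomputable def mat (r : π →* Matrix.SpecialLinearGroup (Fin 2) S) :
    π →* Matrix (Fin 2) (Fin 2) S :=
  { toFun := fun g => (r g : Matrix (Fin 2) (Fin 2) S)
    map_one' := by simp
    map_mul' := fun a b => by simp }

theorem mat_apply (r : π →* Matrix.SpecialLinearGroup (Fin 2) S) (g : π) :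
    mat r g = (r g : Matrix (Fin 2) (Fin 2) S) := rfl

theorem mat_add_inv (r : π →* Matrix.SpecialLinearGroup (Fin 2) S) (g : π) :
    mat r g + mat r g⁻¹ = algebraMap S (Matrix (Fin 2) (Fin 2) S) (mat r g).trace := by
  rw [mat_apply, mat_apply, map_inv, Matrix.SpecialLinearGroup.coe_inv, Matrix.adjugate_fin_two,
    Algebra.algebraMap_eq_smul_one, Matrix.trace_fin_two]
  ext i j
  fin_cases i <;> fin_cases j <;> simp [add_comm]

/-- Let `1/2 ∈ S`, `π` finitely generated and normally generated by `m`. For every representation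
`r : π → SL₂(S)` the matrices in the `S`-algebra generated by the image which commute with `r m`
are `α + β r(m)` with `α, β ∈ S`. -/
theorem sl2 (h2 : IsUnit (2 : S)) [Group.FG π] (m : π) (hm : Subgroup.normalClosure {m} = ⊤)
    (r : π →* Matrix.SpecialLinearGroup (Fin 2) S) (z : Matrix (Fin 2) (Fin 2) S)
    (hz : z ∈ Algebra.adjoin S (Set.range fun g => (r g : Matrix (Fin 2) (Fin 2) S)))
    (hc : Commute z (r m : Matrix (Fin 2) (Fin 2) S)) :
    ∃ α β : S, z = α • (1 : Matrix (Fin 2) (Fin 2) S) + β • (r m : Matrix (Fin 2) (Fin 2) S) := by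
  let E : Subalgebra S (Matrix (Fin 2) (Fin 2) S) :=
    Algebra.adjoin S (Set.range fun g => (r g : Matrix (Fin 2) (Fin 2) S))
  have hE : ∀ g, mat r g ∈ E := fun g => Algebra.subset_adjoin ⟨g, rfl⟩
  let ρ : π →* E :=
    { toFun := fun g => ⟨mat r g, hE g⟩
      map_one' := Subtype.ext (map_one _)
      map_mul' := fun a b => Subtype.ext (map_mul _ _ _) }
  have hρt : ∀ g, algebraMap S E (mat r g).trace = ρ g + ρ g⁻¹ := by
    intro g
    apply Subtype.ext
    exact (mat_add_inv r g).symm
  have hgen : Algebra.adjoin S (Set.range ρ) = ⊤ := by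
    have h1 := Algebra.adjoin_adjoin_coe_preimage (R := S)
      (s := Set.range fun g => (r g : Matrix (Fin 2) (Fin 2) S))
    have h3 : ((↑) : E → Matrix (Fin 2) (Fin 2) S) ⁻¹'
        (Set.range fun g => (r g : Matrix (Fin 2) (Fin 2) S)) = Set.range ρ := by
      ext x
      constructor
      · rintro ⟨g, hg⟩
        exact ⟨g, Subtype.ext hg⟩
      · rintro ⟨g, rfl⟩
        exact ⟨g, rfl⟩
    rw [← h3]
    exact h1
  have hTA : TraceAlgebra S ρ := by
    refine ⟨hgen, fun g h => ?_⟩
    rw [← hρt]
    exact (Algebra.commutes _ _).symm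
  have hspan : Submodule.span S (Set.range ρ) = ⊤ := by
    rw [eq_top_iff]
    rintro x -
    have hx : x ∈ Algebra.adjoin S (Set.range ρ) := by rw [hgen]; trivial
    rw [← Subalgebra.mem_toSubmodule, Algebra.adjoin_eq_span] at hx
    have hcl : (Submonoid.closure (Set.range ρ) : Set E) = Set.range ρ := by
      have : Submonoid.closure (Set.range ρ) = MonoidHom.mrange ρ := by
        rw [← MonoidHom.coe_mrange, Submonoid.closure_eq]
      rw [this, MonoidHom.coe_mrange]
    rwa [hcl] at hx
  have hS : Setup (R := S) ρ (fun g => (mat r g).trace) :=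
    { ht := hρt
      inj := by
        intro a b hab
        have h1 : algebraMap S (Matrix (Fin 2) (Fin 2) S) a = algebraMap S _ b :=
          congrArg Subtype.val hab
        have h3 := congrFun (congrFun h1 0) 0
        simpa [Matrix.algebraMap_matrix_apply] using h3
      span := hspan
      half := by
        obtain ⟨u, hu⟩ := h2
        exact ⟨(↑u⁻¹ : S), by rw [← hu, Units.inv_mul]⟩ }
  have hfin := main_abs' hS m (selfInverse_of_normalClosure hTA h2 m hm) (⟨z, hz⟩ : E)
    (Subtype.ext hc.eq)
  rw [Submodule.mem_span_pair] at hfin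
  obtain ⟨a, b, hab⟩ := hfin
  refine ⟨a, b, ?_⟩
  have := congrArg Subtype.val hab
  exact this.symm

end Pool.Agent.Y343.BH
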