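import Mathlib
import Pool.Agent.H418R3.BHAlg
import Pool.Agent.H418R3.Gauss
import Pool.Agent.Y343.BH.Defs

/-!
# The statements on the centralizer of the meridian
-/

namespace Pool.Agent.Y343.BH

open Pool.Agent.H418R3

universe u v w

/-- **Knots.**  For every knot diagram `D` and every group `π` identified with the knot group, the
centralizer of `X` in `H[π]` is `H⁺[X, X⁻¹]`; and (Q1) `Y` lies in `H⁺[X, X⁻¹]`. -/
def Knots : Prop :=
  ∀ (D : GaussDiagram) (π : Type u) [Group π] (e : D.KnotGroup ≃* π),
    Subalgebra.centralizer ℂ {bhOf π (e D.meridian)} = peri ℂ (bhOf π) (e D.meridian) ∧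
    bhOf π (e D.longitude) ∈ Algebra.adjoin ℂ ((bhPlus π : Set (BHAlg π)) ∪
      {bhOf π (e D.meridian), bhOf π (e D.meridian)⁻¹})

/-- **Characterisation** of the elements `m` of finitely generated groups `π` such that in all
quotient algebras of `H[π]` the centralizer of the image `X` of `m` is generated by the traces and
`X`, `X⁻¹`. -/
def Characterisation : Prop :=
  ∀ (π : Type u) [Group π] [Group.FG π] (m : π),
    SelfInverse (bhOf π) m ↔
      ∀ (A : Type u) [Ring A] [Algebra ℂ A] (ρ : π →* A), TraceAlgebra ℂ ρ →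
        Subalgebra.centralizer ℂ {ρ m} = peri ℂ ρ m

/-- **Ground rings.**  Let `k` be a commutative ring containing `1/2`, `A` a `k`-algebra generated
by the image of `π` with central traces.  If `π` is finitely generated and `m` normally generates
`π` (or `SelfInverse ρ m`), the centralizer of `X = ρ m` is `A⁺[X, X⁻¹]`.  For all `π` and `m` the
differences `tr (g m) - tr (g m⁻¹)` multiply the centralizer of `X` into `A⁺[X, X⁻¹]`. -/
def GroundRings : Prop :=
  ∀ (k : Type v) [CommRing k], IsUnit (2 : k) → ∀ (π : Type u) [Group π] (A : Type w) [Ring A]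
    [Algebra k A] (ρ : π →* A), TraceAlgebra k ρ → ∀ m : π,
    (Group.FG π → (Subgroup.normalClosure {m} = ⊤ ∨ SelfInverse ρ m) →
      Subalgebra.centralizer k {ρ m} = peri k ρ m) ∧
    (∀ z ∈ Subalgebra.centralizer k {ρ m}, ∀ g : π,
      (ρ (g * m) + ρ (g * m)⁻¹ - (ρ (g * m⁻¹) + ρ (g * m⁻¹)⁻¹)) * z ∈ peri k ρ m)

/-- **Representations in `SL₂(S)`**, `S` a commutative ring containing `1/2`, `π` finitely
generated and normally generated by `m`: the matrices `z` of the `S`-algebra generated by the image
which commute with `r m` are `α + β r(m)`, `α, β ∈ S`. -/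
def MatricesSL2 : Prop :=
  ∀ (S : Type v) [CommRing S], IsUnit (2 : S) →
    ∀ (π : Type u) [Group π] [Group.FG π] (m : π), Subgroup.normalClosure {m} = ⊤ →
      ∀ (r : π →* Matrix.SpecialLinearGroup (Fin 2) S) (z : Matrix (Fin 2) (Fin 2) S),
      z ∈ Algebra.adjoin S (Set.range fun g => (r g : Matrix (Fin 2) (Fin 2) S)) →
      Commute z (r m : Matrix (Fin 2) (Fin 2) S) →
      ∃ α β : S, z = α • (1 : Matrix (Fin 2) (Fin 2) S) + β • (r m : Matrix (Fin 2) (Fin 2) S)

/-- **Knot representations**: the matrix of the longitude is `α + β r(meridian)`. -/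
def LongitudeSL2 : Prop :=
  ∀ (S : Type v) [CommRing S], IsUnit (2 : S) →
    ∀ (D : GaussDiagram) (r : D.KnotGroup →* Matrix.SpecialLinearGroup (Fin 2) S),
      ∃ α β : S, (r D.longitude : Matrix (Fin 2) (Fin 2) S) =
        α • (1 : Matrix (Fin 2) (Fin 2) S) + β • (r D.meridian : Matrix (Fin 2) (Fin 2) S)

end Pool.Agent.Y343.BH
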